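import Pool.Agent.H.MP_4002ad_an.A

namespace Pool.Agent.H.MP_38bcdd_an
open scoped ENNReal InnerProductSpace
open MeasureTheory Set FourierTransform Real Pool.Agent.H.MP_4002ad_an

section
variable {H K J : Type} [NormedAddCommGroup H] [InnerProductSpace ℂ H]

def Riesz (f : J → H) : Prop :=
  (Submodule.span ℂ (range f)).topologicalClosure = ⊤ ∧ ∃ A B : ℝ, 0 < A ∧ 0 < B ∧
    ∀ (s : Finset J) (c : J → ℂ), A * ∑ j ∈ s, ‖c j‖ ^ 2 ≤ ‖∑ j ∈ s, c j • f j‖ ^ 2 ∧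
      ‖∑ j ∈ s, c j • f j‖ ^ 2 ≤ B * ∑ j ∈ s, ‖c j‖ ^ 2

lemma pyth {u : K → H} (h : ∀ i j, i ≠ j → ⟪u i, u j⟫_ℂ = 0) (c : K → ℂ) (s : Finset K) :
    ‖∑ i ∈ s, c i • u i‖ ^ 2 = ∑ i ∈ s, ‖c i‖ ^ 2 * ‖u i‖ ^ 2 := by
  classical
  induction s using Finset.induction_on with
  | empty => simp
  | insert i s hi ih =>
    rw [Finset.sum_insert hi, Finset.sum_insert hi, @norm_add_sq ℂ, ih, inner_sum,
      Finset.sum_eq_zero, norm_smul, mul_pow]
    · simp
    · intro j hj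
      rw [inner_smul_left, inner_smul_right, h i j (by rintro rfl; exact hi hj)]; simp

theorem pert [CompleteSpace H] (b : HilbertBasis K ℂ H) {d : K → ℝ} (d1 : ∀ k, 1 ≤ d k)
    (d2 : ∀ k, d k ≤ 2) {r : K → H} (hr : ∀ i j, i ≠ j → ⟪r i, r j⟫_ℂ = 0)
    (nr : ∀ k, ‖r k‖ ≤ 1 / 2) (L : H ≃ₗᵢ[ℂ] H) (θ : K ≃ J) {f : J → H}
    (hf : ∀ k, L (f (θ k)) = (d k : ℂ) • b k + r k) : Riesz f := by
  have hY : ∀ (s : Finset K) (c : K → ℂ),
      ‖∑ i ∈ s, c i • r i‖ ^ 2 ≤ (∑ i ∈ s, ‖c i‖ ^ 2) / 4 := fun s c => by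
    rw [pyth hr, Finset.sum_div]
    refine Finset.sum_le_sum fun i _ => ?_
    have := pow_le_pow_left₀ (norm_nonneg _) (nr i) 2
    nlinarith [sq_nonneg ‖c i‖]
  constructor
  · rw [Submodule.topologicalClosure_eq_top_iff, Submodule.eq_bot_iff]
    intro y hy
    have h1 : ∀ k, ‖⟪b k, L y⟫_ℂ‖ ^ 2 ≤ ‖⟪r k, L y⟫_ℂ‖ ^ 2 := fun k => by
      have h := Submodule.inner_right_of_mem_orthogonal
        (Submodule.subset_span (mem_range_self (θ k))) hy
      rw [← L.inner_map_map, hf, inner_add_left, inner_smul_left, add_eq_zero_iff_neg_eq] at h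
      rw [← h, norm_neg, norm_mul, Complex.conj_ofReal, Complex.norm_real,
        Real.norm_of_nonneg (by linarith [d1 k])]
      gcongr
      exact le_mul_of_one_le_left (norm_nonneg _) (d1 k)
    have h2 : ∀ s : Finset K, ∑ k ∈ s, ‖⟪r k, L y⟫_ℂ‖ ^ 2 ≤ ‖L y‖ ^ 2 / 2 := fun s => by
      have h3 := hY s fun k => ⟪r k, L y⟫_ℂ
      have h4 : (∑ k ∈ s, ‖⟪r k, L y⟫_ℂ‖ ^ 2 : ℝ) =
          RCLike.re ⟪∑ i ∈ s, ⟪r i, L y⟫_ℂ • r i, L y⟫_ℂ := by
        rw [sum_inner, map_sum]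
        refine Finset.sum_congr rfl fun k _ => ?_
        rw [inner_smul_left, RCLike.conj_mul]; norm_cast
      have h5 := re_inner_le_norm (𝕜 := ℂ) (∑ i ∈ s, ⟪r i, L y⟫_ℂ • r i) (L y)
      nlinarith [sq_nonneg (2 * ‖∑ i ∈ s, ⟪r i, L y⟫_ℂ • r i‖ - ‖L y‖ / 2), sq_nonneg ‖L y‖]
    have h3 : HasSum (fun k => ‖⟪b k, L y⟫_ℂ‖ ^ 2) (‖L y‖ ^ 2) := by
      have := (b.hasSum_inner_mul_inner (L y) (L y)).mapL Complex.reCLM
      convert this using 1
      · ext k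
        rw [← inner_conj_symm (L y), RCLike.conj_mul]
        simp [← Complex.ofReal_pow]
      · rw [inner_self_eq_norm_sq_to_K]; simp [← Complex.ofReal_pow]
    have h4 : ‖L y‖ ^ 2 ≤ ‖L y‖ ^ 2 / 2 :=
      le_of_tendsto' h3 fun s => (Finset.sum_le_sum fun k _ => h1 k).trans (h2 s)
    rw [L.norm_map] at h4
    exact norm_eq_zero.1 (by nlinarith [norm_nonneg y])
  · refine ⟨1 / 4, 9, by norm_num, by norm_num, fun s c => ?_⟩
    obtain ⟨s, rfl⟩ : ∃ t : Finset K, s = t.map θ.toEmbedding :=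
      ⟨s.map θ.symm.toEmbedding, by simp [Finset.map_map]⟩
    simp only [Finset.sum_map, Equiv.coe_toEmbedding]
    rw [← L.norm_map, map_sum]
    simp only [map_smul, hf, smul_add, Finset.sum_add_distrib]
    have h1 := hY s (c ∘ θ)
    have h2 := pyth (u := fun k => (d k : ℂ) • b k) (fun i j h => by
      rw [inner_smul_left, inner_smul_right, b.orthonormal.2 h]; simp) (c ∘ θ) s
    have h3 : ∀ k, ‖(d k : ℂ) • b k‖ = d k := fun k => by
      rw [norm_smul, b.orthonormal.1, Complex.norm_real, Real.norm_of_nonneg (by linarith [d1 k]),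
        mul_one]
    simp only [h3, Function.comp] at h1 h2
    have h4 : ∑ i ∈ s, ‖c (θ i)‖ ^ 2 ≤ ∑ i ∈ s, ‖c (θ i)‖ ^ 2 * d i ^ 2 :=
      Finset.sum_le_sum fun i _ => le_mul_of_one_le_right (sq_nonneg _) (by nlinarith [d1 i])
    have h5 : ∑ i ∈ s, ‖c (θ i)‖ ^ 2 * d i ^ 2 ≤ (∑ i ∈ s, ‖c (θ i)‖ ^ 2) * 4 := by
      rw [Finset.sum_mul]
      exact Finset.sum_le_sum fun i _ => by gcongr; nlinarith [d1 i, d2 i]
    rw [← h2] at h4 h5
    generalize ∑ i ∈ s, c (θ i) • (d i : ℂ) • b i = X at *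
    generalize ∑ i ∈ s, c (θ i) • r i = Y at *
    have h6 := norm_add_le X Y
    have h7 : ‖X‖ ≤ ‖X + Y‖ + ‖Y‖ := by simpa using norm_sub_le (X + Y) Y
    have h8 := pow_le_pow_left₀ (norm_nonneg _) h6 2
    have h9 := pow_le_pow_left₀ (norm_nonneg _) h7 2
    constructor <;> nlinarith [sq_nonneg (‖X‖ - ‖Y‖), sq_nonneg (‖X + Y‖ - ‖Y‖), sq_nonneg ‖Y‖]
end

noncomputable abbrev H := Lp ℂ 2 (volume : Measure ℝ)

noncomputable def w (c T t : ℝ) : ℝ → ℂ :=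
  (Ioc c (c + T)).indicator fun x => (((√T)⁻¹ : ℝ) : ℂ) * (𝐞 (-(t * x / T)) : ℂ)

lemma w_mem (c T t : ℝ) : MemLp (w c T t) 2 volume := by
  refine (memLp_indicator_iff_restrict measurableSet_Ioc).2 (MemLp.of_bound
    (Continuous.aestronglyMeasurable (by fun_prop)) (√T)⁻¹ (.of_forall fun x => ?_))
  simp [abs_of_nonneg (Real.sqrt_nonneg T)]

noncomputable def W (c T t : ℝ) : H := (w_mem c T t).toLp _

lemma W_ae (c T t : ℝ) : W c T t =ᵐ[volume] w c T t := (w_mem c T t).coeFn_toLp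

lemma W_inner (c T t : ℝ) (f : H) : ⟪W c T t, f⟫_ℂ =
    ((√T)⁻¹ : ℝ) * ∫ x in Ioc c (c + T), (𝐞 (t * x / T) : ℂ) * f x := by
  rw [L2.inner_def, ← integral_const_mul, ← integral_indicator measurableSet_Ioc]
  refine integral_congr_ae ?_
  filter_upwards [W_ae c T t] with x hx
  rw [hx, w, RCLike.inner_apply, mul_comm]
  by_cases h : x ∈ Ioc c (c + T)
  · rw [indicator_of_mem h, indicator_of_mem h, map_mul, Complex.conj_ofReal, AddChar.map_neg_eq_inv,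
      Circle.coe_inv_eq_conj, Complex.conj_conj, mul_assoc]
  · simp [h]

lemma W_WW (c T t s : ℝ) (hT : 0 < T) :
    ⟪W c T t, W c T s⟫_ℂ = (T⁻¹ : ℝ) * ∫ x in Ioc c (c + T), (𝐞 ((t - s) * x / T) : ℂ) := by
  rw [W_inner, setIntegral_congr_ae measurableSet_Ioc
    (g := fun x => (((√T)⁻¹ : ℝ) : ℂ) * (𝐞 ((t - s) * x / T) : ℂ)), integral_const_mul,
    ← mul_assoc, ← Complex.ofReal_mul, ← mul_inv, Real.mul_self_sqrt hT.le]
  filter_upwards [W_ae c T s] with x hx h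
  rw [hx, w, indicator_of_mem h, mul_left_comm, ← Circle.coe_mul, ← AddChar.map_add_eq_mul]
  congr 3; ring

lemma W_norm (c T t : ℝ) (hT : 0 < T) : ‖W c T t‖ = 1 := by
  have h := W_WW c T t t hT
  rw [inner_self_eq_norm_sq_to_K] at h
  simp only [sub_self, zero_mul, zero_div, AddChar.map_zero_eq_one, Circle.coe_one, integral_const,
    MeasurableSet.univ, measureReal_restrict_apply, univ_inter, Real.volume_real_Ioc,
    add_sub_cancel_left, max_eq_left hT.le, Complex.real_smul, mul_one, ← Complex.ofReal_mul,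
    inv_mul_cancel₀ hT.ne'] at h
  have : ‖W c T t‖ ^ 2 = 1 := by
    have := congrArg Complex.re h
    simpa [← Complex.ofReal_pow] using this
  nlinarith [norm_nonneg (W c T t)]

lemma W_disj {c T t c' T' t' : ℝ} (h : Disjoint (Ioc c (c + T)) (Ioc c' (c' + T'))) :
    ⟪W c T t, W c' T' t'⟫_ℂ = 0 := by
  rw [W_inner, setIntegral_congr_ae measurableSet_Ioc (g := fun _ => 0), integral_zero, mul_zero]
  filter_upwards [W_ae c' T' t'] with x hx h1
  rw [hx, w, indicator_of_notMem (disjoint_left.1 h h1), mul_zero]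

lemma W_near (T : ℝ) (hT : 0 < T) : ‖W T T (1 / 32) - W T T 0‖ ≤ 1 / 2 := by
  refine le_trans (Lp.norm_le_mul_norm_of_ae_le_mul (c := 1 / 2) (g := W T T 0) ?_)
    (by rw [W_norm T T 0 hT, mul_one])
  filter_upwards [Lp.coeFn_sub (W T T (1 / 32)) (W T T 0), W_ae T T (1 / 32), W_ae T T 0]
    with x h1 h2 h3
  rw [h1, Pi.sub_apply, h2, h3, w, w]
  by_cases h : x ∈ Ioc T (T + T)
  · rw [indicator_of_mem h, indicator_of_mem h, ← mul_sub, norm_mul, norm_mul, mul_left_comm]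
    gcongr
    simp only [zero_mul, zero_div, neg_zero, AddChar.map_zero_eq_one, Circle.coe_one, norm_one,
      mul_one, Real.fourierChar_apply]
    rw [mul_comm]
    refine Real.norm_exp_I_mul_ofReal_sub_one_le.trans ?_
    have h4 : x / T ≤ 2 := by rw [div_le_iff₀ hT]; linarith [h.2]
    have h5 : 0 ≤ x / T := div_nonneg (by linarith [h.1]) hT.le
    rw [Real.norm_eq_abs, mul_div_assoc, abs_le]
    constructor <;> nlinarith [Real.pi_le_four, Real.pi_pos]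
  · simp [h]

lemma W_ne : ⟪W 1 1 (1 / 32), W 1 1 1⟫_ℂ ≠ 0 := by
  rw [W_WW _ _ _ _ one_pos, ← intervalIntegral.integral_of_le (by norm_num)]
  have hc : (2 * π * (1 / 32 - 1) * Complex.I : ℂ) ≠ 0 := by
    simp [Real.pi_ne_zero]; norm_num
  have : ∀ x : ℝ, (𝐞 ((1 / 32 - 1) * x / 1) : ℂ) =
      Complex.exp ((2 * π * (1 / 32 - 1) * Complex.I) * x) := fun x => by
    rw [Real.fourierChar_apply]; congr 1; push_cast; ring
  simp only [this]
  rw [integral_exp_mul_complex hc]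
  refine mul_ne_zero (by simp) (div_ne_zero (sub_ne_zero.2 fun h => ?_) hc)
  obtain ⟨n, hn⟩ := Complex.exp_eq_exp_iff_exists_int.1 h
  have h1 := congrArg Complex.im hn
  simp at h1
  have h2 : (32 * n : ℝ) = -31 := by
    apply mul_left_cancel₀ Real.pi_ne_zero; linarith
  norm_cast at h2
  omega

noncomputable def cc (p : Bool × ℤ) : ℝ := if p.1 then 2 ^ p.2 else -2 * 2 ^ p.2

lemma zz {m n : ℤ} {x : ℝ} (h1 : 2 ^ m ≤ x) (h2 : x < 2 * 2 ^ n) : m ≤ n := by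
  have : (2 : ℝ) ^ m < 2 ^ (n + 1) := by rw [zpow_add_one₀ two_ne_zero]; linarith
  exact Int.lt_add_one_iff.1 ((zpow_lt_zpow_iff_right₀ one_lt_two).1 this)

lemma zz' {m n : ℤ} {x : ℝ} (h1 : 2 ^ m < x) (h2 : x ≤ 2 * 2 ^ n) : m ≤ n := by
  have : (2 : ℝ) ^ m < 2 ^ (n + 1) := by rw [zpow_add_one₀ two_ne_zero]; linarith
  exact Int.lt_add_one_iff.1 ((zpow_lt_zpow_iff_right₀ one_lt_two).1 this)

lemma disj (p q : Bool × ℤ) (h : p ≠ q) :
    Disjoint (Ioc (cc p) (cc p + 2 ^ p.2)) (Ioc (cc q) (cc q + 2 ^ q.2)) := by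
  obtain ⟨σ, m⟩ := p
  obtain ⟨τ, n⟩ := q
  have hm : (0 : ℝ) < 2 ^ m := by positivity
  have hn : (0 : ℝ) < 2 ^ n := by positivity
  refine disjoint_left.2 fun x ⟨h1, h2⟩ ⟨h3, h4⟩ => h ?_
  cases σ <;> cases τ <;> simp only [cc, Bool.false_eq_true, if_false, if_true] at h1 h2 h3 h4
  · rw [le_antisymm (zz (x := -x) (m := m) (n := n) (by linarith) (by linarith))
      (zz (x := -x) (m := n) (n := m) (by linarith) (by linarith))]
  · linarith
  · linarith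
  · rw [le_antisymm (zz' (x := x) (m := m) (n := n) (by linarith) (by linarith))
      (zz' (x := x) (m := n) (n := m) (by linarith) (by linarith))]

theorem basis : ∃ b : HilbertBasis ((Bool × ℤ) × ℤ) ℂ H,
    ∀ p, b p = W (cc p.1) (2 ^ p.1.2) p.2 := by
  refine onb _ (fun p => W_norm _ _ _ (by positivity)) fun f => ?_
  rw [ENNReal.tsum_prod']
  have : ∀ p : Bool × ℤ, ∑' k : ℤ, ‖⟪W (cc p) (2 ^ p.2) k, f⟫_ℂ‖ₑ ^ 2 =
      ∫⁻ x in Ioc (cc p) (cc p + 2 ^ p.2), ‖f x‖ₑ ^ 2 := fun p => by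
    have hT : (0 : ℝ) < 2 ^ p.2 := by positivity
    simp only [W_inner, enorm_mul, mul_pow, ENNReal.tsum_mul_left]
    rw [P1 _ _ hT f ((Lp.memLp f).restrict _), esq, ← mul_assoc, ← ENNReal.ofReal_mul (by positivity),
      Complex.norm_real, Real.norm_of_nonneg (by positivity), inv_pow, Real.sq_sqrt hT.le,
      inv_mul_cancel₀ hT.ne', ENNReal.ofReal_one, one_mul]
  simp only [this]
  rw [← lintegral_iUnion (fun _ => measurableSet_Ioc) disj, Lp.enorm_def, el,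
    Measure.restrict_eq_self_of_ae_mem]
  filter_upwards [compl_mem_ae_iff.2 (measure_singleton (0 : ℝ))] with x hx
  rcases lt_or_gt_of_ne (show x ≠ 0 from hx) with h | h
  · obtain ⟨n, h1, h2⟩ := exists_mem_Ico_zpow (neg_pos.2 h) one_lt_two
    rw [zpow_add_one₀ two_ne_zero] at h2
    exact mem_iUnion.2 ⟨(false, n), by simp only [cc]; constructor <;> simp <;> linarith⟩
  · obtain ⟨n, h1, h2⟩ := exists_mem_Ioc_zpow h one_lt_two
    rw [zpow_add_one₀ two_ne_zero] at h2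
    exact mem_iUnion.2 ⟨(true, n), by simp only [cc]; constructor <;> simp <;> linarith⟩

lemma phys (g : H) {c T : ℝ} (hg : g =ᵐ[volume] (Ioc c (c + T)).indicator 1) (hT : 0 < T) {a : ℝ}
    (ha : 0 < a) (l : ℝ) : ∃ v : H,
      (v =ᵐ[volume] fun x => ((√|a| : ℝ) : ℂ) * (𝓕⁻ g : H) (a * x - l)) ∧
      (𝓕 v : H) = ((√T : ℝ) : ℂ) • W (a * c) (a * T) (l * T) := by
  have hs := Real.sq_sqrt ha.le
  obtain ⟨U, V, hU, hV, hUV⟩ := inter (E := ℝ) (a • LinearMap.id) (a⁻¹ • LinearMap.id) l √a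
    (by positivity) (by simp [hs, abs_of_pos ha]) (by simp [hs, abs_of_pos ha])
    (fun x ξ => by simp; field_simp)
  refine ⟨U (𝓕⁻ g), by simpa [abs_of_pos ha] using hU (𝓕⁻ g), ?_⟩
  rw [hUV, fourier_fourierInv_eq]
  refine Lp.ext ?_
  filter_upwards [hV g, (Measure.quasiMeasurePreserving_smul volume (inv_ne_zero ha.ne')).ae hg,
    Lp.coeFn_smul ((√T : ℝ) : ℂ) (W (a * c) (a * T) (l * T)), W_ae (a * c) (a * T) (l * T)]
    with x h1 h2 h3 h4
  rw [h1, h3, Pi.smul_apply, h4, w]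
  simp only [LinearMap.smul_apply, LinearMap.id_apply, h2]
  have e : a⁻¹ • x ∈ Ioc c (c + T) ↔ x ∈ Ioc (a * c) (a * c + a * T) := by
    rw [smul_eq_mul, mem_Ioc, mem_Ioc, lt_inv_mul_iff₀ ha, inv_mul_le_iff₀ ha, mul_add]
  by_cases h : x ∈ Ioc (a * c) (a * c + a * T)
  · rw [indicator_of_mem h, indicator_of_mem (e.2 h), smul_eq_mul (√T : ℂ), ← mul_assoc,
      ← Complex.ofReal_mul, Pi.one_apply, mul_one, Real.sqrt_mul ha.le]
    have : √T ≠ 0 := by positivity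
    congr 3
    · field_simp
    · simp; field_simp
  · rw [indicator_of_notMem h, indicator_of_notMem (mt e.1 h)]; simp

end Pool.Agent.H.MP_38bcdd_an
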