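import Pool.Agent.H.MP_38bcdd_an.A

namespace Pool.Agent.H.MP_38bcdd_an
open scoped ENNReal InnerProductSpace
open MeasureTheory Set FourierTransform Real Pool.Agent.H.MP_4002ad_an

noncomputable def lam (k : ℤ) : ℝ := if k = 0 then 1 / 32 else k

lemma lam_inj : Function.Injective lam := fun k l h => by
  unfold lam at h
  split_ifs at h with h1 h2 h2
  · omega
  · have : (32 * l : ℝ) = 1 := by linarith
    norm_cast at this; omega
  · have : (32 * k : ℝ) = 1 := by linarith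
    norm_cast at this; omega
  · exact_mod_cast h

def c0 : Fin 3 → ℝ := ![1, -2, -4]
def T0 : Fin 3 → ℝ := ![1, 1, 2]
def Om (i : Fin 3) : Set ℝ := Ioc (c0 i) (c0 i + T0 i)
def La : Fin 3 → Set ℝ := ![range lam, (↑) '' {k : ℤ | Even k}, (fun k : ℤ => k / 2) '' {k | ¬ Even k}]
def AA : Set ℝ := range fun n : ℤ => (2 : ℝ) ^ n

abbrev J := {q : Fin 3 × ℝ × ℝ // q.2.1 ∈ La q.1 ∧ q.2.2 ∈ AA}

noncomputable def θ (p : (Bool × ℤ) × ℤ) : J :=
  if p.1.1 then ⟨(0, lam p.2, 2 ^ p.1.2), ⟨_, rfl⟩, ⟨_, rfl⟩⟩ else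
    if h : Even p.2 then ⟨(1, p.2, 2 ^ p.1.2), ⟨_, h, rfl⟩, ⟨_, rfl⟩⟩ else
      ⟨(2, p.2 / 2, 2 ^ (p.1.2 - 1)), ⟨_, h, rfl⟩, ⟨_, rfl⟩⟩

lemma θ_bij : Function.Bijective θ := by
  have hz := zpow_right_injective₀ (a := (2 : ℝ)) two_pos (by norm_num)
  constructor
  · rintro ⟨⟨σ, m⟩, k⟩ ⟨⟨τ, n⟩, l⟩ h
    have h := congrArg Subtype.val h
    cases σ <;> cases τ <;> simp only [θ, Bool.false_eq_true, if_false, if_true] at h
    · split_ifs at h <;> simp only [Prod.mk.injEq] at h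
      · rw [hz h.2.2, Int.cast_injective h.2.1]
      · exact absurd h.1 (by decide)
      · exact absurd h.1 (by decide)
      · have h1 := hz h.2.2
        have h2 : (k : ℝ) = l := by linarith [h.2.1]
        rw [Int.cast_injective h2, show m = n by omega]
    · split_ifs at h <;> exact absurd (congrArg Prod.fst h) (by simp)
    · split_ifs at h <;> exact absurd (congrArg Prod.fst h) (by simp)
    · simp only [Prod.mk.injEq] at h
      rw [hz h.2.2, lam_inj h.2.1]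
  · rintro ⟨⟨i, l, a⟩, hl, n, hn⟩
    simp only at hn hl
    subst hn
    fin_cases i
    · obtain ⟨k, rfl⟩ := hl
      exact ⟨((true, n), k), rfl⟩
    · obtain ⟨k, hk, rfl⟩ := hl
      exact ⟨((false, n), k), by simp [θ, show Even k from hk]⟩
    · obtain ⟨k, hk, rfl⟩ := hl
      exact ⟨((false, n + 1), k), by simp [θ, show ¬ Even k from hk]⟩

lemma T0_pos (i : Fin 3) : 0 < T0 i := by fin_cases i <;> simp [T0]

theorem main : ∃ (A : Set ℝ) (Ω Λ : Fin 3 → Set ℝ) (ψ : Fin 3 → H)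
    (f : {q : Fin 3 × ℝ × ℝ // q.2.1 ∈ Λ q.1 ∧ q.2.2 ∈ A} → H),
    (A.Countable ∧ 0 ∉ A) ∧ (∀ i, (Λ i).Countable) ∧
    (∀ i, MeasurableSet (Ω i) ∧ 0 < volume (Ω i) ∧ volume (Ω i) < ⊤) ∧
    Pairwise (fun i j => Disjoint (Ω i) (Ω j)) ∧
    (∀ i, (𝓕 (ψ i) : H) =ᵐ[volume] (Ω i).indicator 1) ∧
    (∀ q, f q =ᵐ[volume] fun x => ((√|q.1.2.2| : ℝ) : ℂ) * ψ q.1.1 (q.1.2.2 * x - q.1.2.1)) ∧
    Riesz f ∧ (∃ p q, p ≠ q ∧ ⟪f p, f q⟫_ℂ ≠ 0) ∧
    ∀ k : ℕ, ¬ ∀ᵐ ξ : ℝ, {a ∈ A | ξ ∈ (a * ·) '' ⋃ i, Ω i}.encard = k := by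
  have hm : ∀ i, MemLp ((Om i).indicator (1 : ℝ → ℂ)) 2 volume := fun i =>
    memLp_indicator_const 2 measurableSet_Ioc 1 (Or.inr measure_Ioc_lt_top.ne)
  choose f f1 f2 using fun q : J => phys ((hm q.1.1).toLp _) (hm q.1.1).coeFn_toLp (T0_pos _)
    (a := q.1.2.2) (by obtain ⟨n, hn⟩ := q.2.2; rw [← hn]; positivity) q.1.2.1
  have ft : ∀ n k, (𝓕 (f (θ ((true, n), k))) : H) = W (2 ^ n) (2 ^ n) (lam k) := fun n k => by
    rw [f2]; simp [θ, T0, c0]
  refine ⟨AA, Om, La, fun i => 𝓕⁻ ((hm i).toLp _), f, ⟨countable_range _, ?_⟩, fun i => ?_,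
    fun i => ⟨measurableSet_Ioc, by simp [Om, T0_pos], measure_Ioc_lt_top⟩, fun i j h => ?_,
    fun i => by rw [fourier_fourierInv_eq]; exact (hm i).coeFn_toLp, f1, ?_,
    ⟨θ ((true, 0), 0), θ ((true, 0), 1), fun h => by simpa using θ_bij.1 h, ?_⟩, fun k hk => ?_⟩
  · rintro ⟨n, hn⟩
    exact absurd hn (by positivity)
  · fin_cases i
    · exact countable_range _
    · exact (to_countable _).image _
    · exact (to_countable _).image _
  · refine disjoint_left.2 fun x h1 h2 => h ?_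
    fin_cases i <;> fin_cases j <;> simp [Om, c0, T0] at h1 h2 ⊢ <;> linarith
  · obtain ⟨b, hb⟩ := basis
    classical
    refine pert b (d := fun p => if p.1.1 = true ∨ Even p.2 then 1 else √2)
      (fun p => by split_ifs <;> simp) (fun p => by
        split_ifs
        · norm_num
        · exact Real.sqrt_le_iff.2 (by norm_num))
      (r := fun p => if p.1.1 = true ∧ p.2 = 0 then
        W (2 ^ p.1.2) (2 ^ p.1.2) (1 / 32) - W (2 ^ p.1.2) (2 ^ p.1.2) 0 else 0) ?_ (fun p => by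
        split_ifs
        · exact W_near _ (by positivity)
        · simp) (Lp.fourierTransformₗᵢ ℝ ℂ) (.ofBijective θ θ_bij) ?_
    · rintro ⟨⟨σ, m⟩, k⟩ ⟨⟨τ, n⟩, l⟩ h
      split_ifs with h1 h2
      · obtain ⟨rfl, rfl⟩ := h1
        obtain ⟨rfl, rfl⟩ := h2
        have := disj (true, m) (true, n) (by simpa using h)
        simp only [cc, if_true] at this
        simp [inner_sub_left, inner_sub_right, W_disj this]
      all_goals simp
    · rintro ⟨⟨σ, n⟩, k⟩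
      change (𝓕 (f (θ ((σ, n), k))) : H) = _
      rw [hb]
      cases σ
      · rw [f2]
        by_cases h : Even k
        · simp [θ, h, T0, c0, cc, mul_comm]
        · have e : (2 : ℝ) ^ (n - 1) * 2 = 2 ^ n := by
            rw [← zpow_add_one₀ two_ne_zero, sub_add_cancel]
          have e' : (2 : ℝ) ^ (n - 1) * 4 = 2 * 2 ^ n := by linarith
          simp [θ, h, T0, c0, cc, e, e']
      · rw [ft]
        by_cases h : k = 0 <;> simp [cc, lam, h]
  · rw [← Lp.inner_fourier_eq, ft, ft]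
    simpa [lam] using W_ne
  · obtain ⟨x, hx, h1⟩ := Measure.exists_mem_of_measure_ne_zero_of_ae (s := Ioc (1 : ℝ) 2)
      (by simp) (ae_restrict_of_ae hk)
    obtain ⟨y, hy, h2⟩ := Measure.exists_mem_of_measure_ne_zero_of_ae (s := Ioc (-2 : ℝ) (-1))
      (by simp) (ae_restrict_of_ae hk)
    have h3 : {a ∈ AA | x ∈ (a * ·) '' ⋃ i, Om i} ⊆ {1} := by
      rintro _ ⟨⟨n, rfl⟩, z, hz, hz'⟩
      obtain ⟨i, hi⟩ := mem_iUnion.1 hz
      have hn : (0 : ℝ) < 2 ^ n := by positivity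
      simp only at hz'
      fin_cases i <;> simp [Om, c0, T0] at hi
      · rw [le_antisymm (zz' (x := x) (m := n) (n := 0) (by nlinarith) (by simpa using hx.2))
          (zz' (x := x) (m := 0) (n := n) (by simpa using hx.1) (by nlinarith))]
        simp
      · nlinarith [hx.1]
      · nlinarith [hx.1]
    have h4 : {1, 1 / 2} ⊆ {a ∈ AA | y ∈ (a * ·) '' ⋃ i, Om i} := by
      rintro _ (rfl | rfl)
      · exact ⟨⟨0, by simp⟩, y, mem_iUnion.2 ⟨1, by
          simp [Om, c0, T0]; constructor <;> linarith [hy.1, hy.2]⟩, by simp⟩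
      · exact ⟨⟨-1, by simp⟩, 2 * y, mem_iUnion.2 ⟨2, by
          simp [Om, c0, T0]; constructor <;> linarith [hy.1, hy.2]⟩, by simp⟩
    have h5 := encard_le_encard h3
    have h6 := encard_le_encard h4
    rw [encard_pair (by norm_num), h2, ← h1] at h6
    rw [encard_singleton] at h5
    exact absurd (h6.trans h5) (by decide)

end Pool.Agent.H.MP_38bcdd_an
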